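import Pool.Agent.MP_e16607_lc.Sig2

set_option autoImplicit false

namespace Pool.Agent.Results.MP_e16607_lc.L1SigmaTwo

/-- The language is complete for the second level of the polynomial hierarchy. -/
theorem result : N793a5b8e.IsCompleteFor Pool.Agent.MP_e16607_lc.SigmaTwoP
    Pool.Agent.MP_e16607_lc.langDisc :=
  Pool.Agent.MP_e16607_lc.S2.complete Pool.Agent.MP_e16607_lc.langDisc_iff

end Pool.Agent.Results.MP_e16607_lc.L1SigmaTwo
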